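import Pool.Agent.Helper8.KT.Sheet2
import Pool.Agent.Helper94.SR.Res

/-! Sheet KT, row DC0: the dual of `c_0(ℕ; Z)` is separable if the dual of `Z` is. -/

open scoped ZeroAtInfty
open Set Filter Topology

namespace Pool.Agent.Helper7.KTD

open Pool.Agent.Helper94.SR

variable {Z : Type*} [NormedAddCommGroup Z] [NormedSpace ℝ Z]

/-- The evaluation at `i`. -/
noncomputable def ev (i : ℕ) : C₀(ℕ, Z) →L[ℝ] Z :=
  LinearMap.mkContinuous
    { toFun := fun x => x i
      map_add' := fun _ _ => rfl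
      map_smul' := fun _ _ => rfl } 1 fun x => by
    rw [one_mul]
    exact c0_apply_le x i

theorem ev_apply (i : ℕ) (x : C₀(ℕ, Z)) : ev i x = x i := rfl

omit [NormedSpace ℝ Z] in
theorem single_fin (i : ℕ) (z : Z) (ε : ℝ) (hε : 0 < ε) :
    {γ | ε ≤ ‖(Pi.single i z : ℕ → Z) γ‖}.Finite := by
  refine (Set.finite_singleton i).subset fun γ hγ => ?_
  by_contra h
  have h1 : ε ≤ ‖(Pi.single i z : ℕ → Z) γ‖ := hγ
  have h2 : γ ≠ i := h
  rw [Pi.single_eq_of_ne h2, norm_zero] at h1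
  linarith

/-- The element with the one value `z` at `i`. -/
noncomputable def sg (i : ℕ) : Z →L[ℝ] C₀(ℕ, Z) :=
  LinearMap.mkContinuous
    { toFun := fun z => mk0 (Pi.single i z) (single_fin i z)
      map_add' := fun x y => by
        ext γ
        rw [ZeroAtInftyContinuousMap.add_apply, mk0_apply, mk0_apply, mk0_apply, Pi.single_add]
        rfl
      map_smul' := fun a x => by
        ext γ
        rw [RingHom.id_apply, ZeroAtInftyContinuousMap.smul_apply, mk0_apply, mk0_apply,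
          Pi.single_smul]
        rfl } 1 fun z => by
    rw [one_mul]
    refine (c0_norm_le _ (norm_nonneg z)).2 fun γ => ?_
    change ‖(Pi.single i z : ℕ → Z) γ‖ ≤ ‖z‖
    by_cases h : γ = i
    · subst h
      rw [Pi.single_eq_same]
    · rw [Pi.single_eq_of_ne h, norm_zero]
      exact norm_nonneg z

theorem sg_apply (i : ℕ) (z : Z) (γ : ℕ) : sg i z γ = (Pi.single i z : ℕ → Z) γ := rfl

theorem rs_sum (n : ℕ) (x : C₀(ℕ, Z)) :
    rs (Set.Iio n) x = ∑ i : Fin n, sg (i : ℕ) (x i) := by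
  rw [← Finset.sum_range (fun i => sg i (x i))]
  ext γ
  have h1 : (∑ i ∈ Finset.range n, sg i (x i)) γ = ∑ i ∈ Finset.range n, ev γ (sg i (x i)) := by
    rw [← map_sum]
    rfl
  rw [h1]
  simp only [ev_apply, sg_apply]
  by_cases h : γ < n
  · rw [rs_mem _ (show γ ∈ Set.Iio n from h), Finset.sum_eq_single γ]
    · rw [Pi.single_eq_same]
    · intro b _ hb
      rw [Pi.single_eq_of_ne hb.symm]
    · intro h2
      exact absurd (Finset.mem_range.2 h) h2
  · rw [rs_notMem _ (show γ ∉ Set.Iio n from h)]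
    symm
    refine Finset.sum_eq_zero fun b hb => ?_
    rw [Pi.single_eq_of_ne]
    rintro rfl
    exact h (Finset.mem_range.1 hb)

theorem rs_tail (x : C₀(ℕ, Z)) {δ : ℝ} (hδ : 0 < δ) (n : ℕ) :
    ∃ m, n ≤ m ∧ ‖x - rs (Set.Iio m) x‖ ≤ δ := by
  obtain ⟨M, hM⟩ := (c0_finite x hδ).bddAbove
  refine ⟨max n (M + 1), le_max_left _ _, (c0_norm_le _ hδ.le).2 fun γ => ?_⟩
  rw [ZeroAtInftyContinuousMap.sub_apply]
  by_cases h : γ < max n (M + 1)
  · rw [rs_mem _ (show γ ∈ Set.Iio _ from h), sub_self, norm_zero]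
    exact hδ.le
  · rw [rs_notMem _ (show γ ∉ Set.Iio _ from h), sub_zero]
    by_contra h1
    have h2 : γ ≤ M := hM (show δ ≤ ‖x γ‖ from (not_le.1 h1).le)
    have h3 : M + 1 ≤ max n (M + 1) := le_max_right _ _
    omega

theorem glue (x y : C₀(ℕ, Z)) (hx : ‖x‖ ≤ 1) (hy : ‖y‖ ≤ 1) {n m : ℕ} (h : n ≤ m) :
    ∃ w : C₀(ℕ, Z), ‖w‖ ≤ 1 ∧
      rs (Set.Iio m) w = rs (Set.Iio n) x + (rs (Set.Iio m) y - rs (Set.Iio n) y) := by
  refine ⟨rs (Set.Iio n) x + (y - rs (Set.Iio n) y), ?_, ?_⟩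
  · refine (c0_norm_le _ zero_le_one).2 fun γ => ?_
    rw [ZeroAtInftyContinuousMap.add_apply, ZeroAtInftyContinuousMap.sub_apply]
    by_cases h1 : γ < n
    · rw [rs_mem _ (show γ ∈ Set.Iio _ from h1), rs_mem _ (show γ ∈ Set.Iio _ from h1), sub_self,
        add_zero]
      exact (c0_apply_le x γ).trans hx
    · rw [rs_notMem _ (show γ ∉ Set.Iio _ from h1), rs_notMem _ (show γ ∉ Set.Iio _ from h1),
        sub_zero, zero_add]
      exact (c0_apply_le y γ).trans hy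
  · have hs : Set.Iio n ⊆ Set.Iio m := Set.Iio_subset_Iio h
    rw [map_add, map_sub, rs_rs' hs, rs_rs' hs]

theorem approx (f : StrongDual ℝ C₀(ℕ, Z)) {ε : ℝ} (hε : 0 < ε) :
    ∃ n, ‖f - f.comp (rs (Set.Iio n))‖ ≤ ε := by
  set S : Set ℝ := {r | ∃ n x, ‖x‖ ≤ 1 ∧ r = f (rs (Set.Iio n) x)} with hS
  have hrs : ∀ (n : ℕ) (x : C₀(ℕ, Z)), ‖rs (Set.Iio n) x‖ ≤ ‖x‖ := fun n x =>
    (c0_norm_le _ (norm_nonneg x)).2 fun γ => (ind_norm_le (Set.Iio n) x γ).trans (c0_apply_le x γ)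
  have hb : BddAbove S := by
    refine ⟨‖f‖, ?_⟩
    rintro r ⟨n, x, hx, rfl⟩
    calc f (rs (Set.Iio n) x) ≤ ‖f (rs (Set.Iio n) x)‖ := le_abs_self _
      _ ≤ ‖f‖ * ‖rs (Set.Iio n) x‖ := f.le_opNorm _
      _ ≤ ‖f‖ * 1 := mul_le_mul_of_nonneg_left ((hrs n x).trans hx) (ContinuousLinearMap.opNorm_nonneg f)
      _ = ‖f‖ := mul_one _
  have hne : S.Nonempty := ⟨_, 0, 0, by simp, rfl⟩
  obtain ⟨r, ⟨n, x, hx, rfl⟩, hr⟩ := exists_lt_of_lt_csSup hne (show sSup S - ε < sSup S by linarith)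
  have key : ∀ y : C₀(ℕ, Z), ‖y‖ ≤ 1 → f (y - rs (Set.Iio n) y) ≤ ε := by
    intro y hy
    refine le_of_forall_pos_le_add fun δ hδ => ?_
    have hf : 0 < ‖f‖ + 1 := by positivity
    obtain ⟨m, hnm, hm⟩ := rs_tail y (show 0 < δ / (‖f‖ + 1) by positivity) n
    obtain ⟨w, hw, hw2⟩ := glue x y hx hy hnm
    have h1 : f (rs (Set.Iio m) w) ≤ sSup S := le_csSup hb ⟨m, w, hw, rfl⟩
    rw [hw2, map_add] at h1
    have h2 : f (y - rs (Set.Iio n) y) =
        f (y - rs (Set.Iio m) y) + f (rs (Set.Iio m) y - rs (Set.Iio n) y) := by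
      rw [← map_add]
      congr 1
      abel
    have h3 : f (y - rs (Set.Iio m) y) ≤ δ := by
      calc f (y - rs (Set.Iio m) y) ≤ ‖f (y - rs (Set.Iio m) y)‖ := le_abs_self _
        _ ≤ ‖f‖ * ‖y - rs (Set.Iio m) y‖ := f.le_opNorm _
        _ ≤ ‖f‖ * (δ / (‖f‖ + 1)) := mul_le_mul_of_nonneg_left hm (ContinuousLinearMap.opNorm_nonneg f)
        _ = δ * (‖f‖ / (‖f‖ + 1)) := by ring
        _ ≤ δ * 1 := by
          refine mul_le_mul_of_nonneg_left ?_ hδ.le
          rw [div_le_one hf]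
          linarith
        _ = δ := mul_one _
    rw [h2]
    linarith
  refine ⟨n, ContinuousLinearMap.opNorm_le_of_unit_norm hε.le fun y hy => ?_⟩
  have e1 : (f - f.comp (rs (Set.Iio n))) y = f (y - rs (Set.Iio n) y) := by
    rw [map_sub]
    rfl
  rw [e1, Real.norm_eq_abs, abs_le]
  constructor
  · have h1 := key (-y) (by rw [norm_neg]; exact hy.le)
    have e3 : -y - rs (Set.Iio n) (-y) = -(y - rs (Set.Iio n) y) := by
      rw [map_neg (rs (Set.Iio n)) y]
      abel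
    have e2 : f (-y - rs (Set.Iio n) (-y)) = - f (y - rs (Set.Iio n) y) := by
      rw [e3, map_neg f]
    rw [e2] at h1
    linarith
  · exact key y hy.le

end Pool.Agent.Helper7.KTD

namespace Pool.Agent.Helper8.KT

open Pool.Agent.Helper94.SR Pool.Agent.Helper7.KTD

theorem stDC0.{u} : ST_DC0.{u} := by
  intro Z _ _ _
  set T : (n : ℕ) → (Fin n → StrongDual ℝ Z) → StrongDual ℝ C₀(ℕ, Z) := fun n g =>
    ∑ i : Fin n, (g i).comp (ev (i : ℕ)) with hT
  have hc : ∀ n, Continuous (T n) := fun n =>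
    continuous_finsetSum _ fun i _ => (continuous_apply i).clm_comp continuous_const
  have hs : TopologicalSpace.IsSeparable (⋃ n, Set.range (T n)) :=
    TopologicalSpace.IsSeparable.iUnion fun n => TopologicalSpace.isSeparable_range (hc n)
  have hcl : closure (⋃ n, Set.range (T n)) = Set.univ := by
    refine Set.eq_univ_of_forall fun f =>
      (Metric.mem_closure_iff (α := StrongDual ℝ C₀(ℕ, Z))).2 fun ε hε => ?_
    obtain ⟨n, hn⟩ := approx f (half_pos hε)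
    refine ⟨f.comp (rs (Set.Iio n)), Set.mem_iUnion.2 ⟨n, fun i => f.comp (sg (i : ℕ)), ?_⟩, ?_⟩
    · ext x
      have h1 : T n (fun i => f.comp (sg (i : ℕ))) x = ∑ i : Fin n, f (sg (i : ℕ) (x i)) := by
        simp only [hT, sum_apply]
        rfl
      rw [h1, ContinuousLinearMap.comp_apply, rs_sum, map_sum]
    · exact lt_of_le_of_lt ((dist_eq_norm f (f.comp (rs (Set.Iio n)))).trans_le hn) (by linarith)
  have := hs.closure
  rw [hcl] at this
  exact TopologicalSpace.isSeparable_univ_iff.1 this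

end Pool.Agent.Helper8.KT
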