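import Pool.Agent.Helper93.TS.Stmts

set_option autoImplicit false

/-!
MP_b1773a, module cb: the cost of the parameter `b`.
-/

namespace Pool.Agent.Helper93.TS

open Pool.Agent.Helper8.Kak

theorem st_cb (h1 : ST_PRE) : ST_cb := by
  intro m N D
  have hP := h1 m N D
  have hκ := hP.κ0
  have hN : 1 ≤ N * N := Nat.mul_pos D.hN D.hN
  refine cost_le D.V _ _ VV.b (by decide +kernel) _ fun r _ => ?_
  have h2 := Pool.Agent.Helper89.KakGeo.CE_param hP.hp r D.vb hN
  have h3 : 2 * Ex D.pz (fun y => up (N * N) (D.vb y)) + Real.log 3 ≤ D.kc := by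
    apply le_kk hκ
    linarith [hP.upb, log3_le]
  have h4 : CE D.pz (D.V VV.b) r = CE D.pz (Setoid.ker D.vb) r := rfl
  have h5 : Real.log ((N * N : ℕ) : ℝ) = 2 * Real.log N := by
    have hN0 : (N : ℝ) ≠ 0 := by
      have := D.hN
      exact_mod_cast (by omega : N ≠ 0)
    push_cast
    rw [Real.log_mul hN0 hN0]
    ring
  rw [h4]
  rw [h5] at h2
  linarith

end Pool.Agent.Helper93.TS
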